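import Pool.Agent.Helper38.RS.Goals3

/-!
# Packet RS-GFB (MP_fc6b1e_nt): the function `G`
-/

namespace Pool.Agent.Helper51.RS

open NumberField Polynomial Module IsDedekindDomain Pool.Agent.Helper38.RS

variable {F : Type} [Field F] [NumberField F]

theorem house_pos {α : F} (h : α ≠ 0) : 0 < house α := by
  rw [house, norm_pos_iff]
  exact fun h0 => h ((map_eq_zero (canonicalEmbedding F)).1 h0)

theorem absN_pos {α : F} (h : α ≠ 0) : 0 < absN α := by
  unfold absN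
  rw [abs_pos]
  exact_mod_cast Algebra.norm_ne_zero_iff.2 h

theorem absN_unit (ε : (𝓞 F)ˣ) (α : F) : absN ((ε : F) * α) = absN α := by
  unfold absN
  rw [map_mul, Rat.cast_mul, abs_mul]
  have h1 : |((Algebra.norm ℚ (ε : F) : ℚ) : ℝ)| = 1 := by
    have h2 := NumberField.isUnit_iff_norm.1 ε.isUnit
    rw [RingOfIntegers.coe_norm] at h2
    exact_mod_cast h2
  rw [h1, one_mul]

theorem exists_nat_int (α : F) : ∃ q : ℕ, 0 < q ∧ IsIntegral ℤ ((q : F) * α) := by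
  have halg : IsAlgebraic ℤ α :=
    (IsFractionRing.isAlgebraic_iff ℤ ℚ F).2 (Algebra.IsAlgebraic.isAlgebraic (R := ℚ) α)
  obtain ⟨y, hy, hint⟩ := halg.exists_integral_multiple
  refine ⟨y.natAbs, Int.natAbs_pos.2 hy, ?_⟩
  rw [zsmul_eq_mul] at hint
  have hc : ∀ n : ℕ, (((n : ℤ) : F)) = (n : F) := fun n => Int.cast_natCast n
  rcases Int.natAbs_eq y with h | h
  · rw [h, hc] at hint
    exact hint
  · rw [h, Int.cast_neg, hc] at hint
    have := hint.neg
    rwa [neg_mul, neg_neg] at this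

theorem hf_pos {α : F} (h : α ≠ 0) : 0 < hf α := by
  unfold hf
  have := house_pos h
  have := absN_pos h
  positivity

theorem unit_ne (ε : (𝓞 F)ˣ) : (ε : F) ≠ 0 := by
  have : ((ε : 𝓞 F) : F) ≠ 0 := by
    rw [Ne, RingOfIntegers.coe_eq_zero_iff]
    exact ε.ne_zero
  exact this

theorem summ (h1 : S_LSM) {α : F} (h : α ≠ 0) :
    Summable fun ε : (𝓞 F)ˣ ↦ hf ((ε : F) * α) := by
  obtain ⟨q, hq, hint⟩ := exists_nat_int α
  have hn : 0 < finrank ℚ F := finrank_pos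
  have hs := h1 F (3 * finrank ℚ F) (by
    have : (0 : ℝ) < finrank ℚ F := by exact_mod_cast hn
    linarith)
  obtain ⟨β, hβ⟩ : ∃ β : 𝓞 F, (β : F) = (q : F) * α := ⟨⟨_, hint⟩, rfl⟩
  have hq0 : (q : F) ≠ 0 := by exact_mod_cast hq.ne'
  have hβ0 : β ≠ 0 := by
    intro h0
    have h00 : (β : F) = 0 := (RingOfIntegers.coe_eq_zero_iff).2 h0
    rw [h00] at hβ
    exact mul_ne_zero hq0 h hβ.symm
  have hinj : Function.Injective fun ε : (𝓞 F)ˣ =>
      (⟨(ε : 𝓞 F) * β, mul_ne_zero ε.ne_zero hβ0⟩ : {α : 𝓞 F // α ≠ 0}) := by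
    intro ε ε' he
    have he' : (ε : 𝓞 F) * β = ε' * β := congrArg Subtype.val he
    exact Units.ext (mul_right_cancel₀ hβ0 he')
  have hs2 := (hs.comp_injective hinj).mul_left (absN α ^ 3 * (q : ℝ) ^ (3 * finrank ℚ F))
  refine hs2.congr fun ε => ?_
  have h3 : house ((((ε : 𝓞 F) * β : 𝓞 F) : F)) = q * house ((ε : F) * α) := by
    rw [← house_nat_mul]
    congr 1
    have h33 : (((ε : 𝓞 F) * β : 𝓞 F) : F) = (ε : F) * (β : F) := rfl
    rw [h33, hβ]
    ring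
  have h4 : 0 < house ((ε : F) * α) := house_pos (mul_ne_zero (unit_ne ε) h)
  have hq1 : (0 : ℝ) < q := by exact_mod_cast hq
  change absN α ^ 3 * (q : ℝ) ^ (3 * finrank ℚ F) *
    house ((((ε : 𝓞 F) * β : 𝓞 F) : F)) ^ (-(3 * finrank ℚ F : ℝ)) = _
  rw [h3]
  unfold hf
  rw [absN_unit, Real.rpow_neg (by positivity)]
  have h5 : (q * house ((ε : F) * α)) ^ (3 * finrank ℚ F : ℝ) =
      (q * house ((ε : F) * α)) ^ (3 * finrank ℚ F) := by
    rw [← Real.rpow_natCast]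
    push_cast
    rfl
  rw [h5, mul_pow]
  field_simp

theorem s_gfb (h1 : S_LSM) (h2 : S_UNI) : Pool.Agent.Helper38.RS.S_GFB := by
  intro F _ _
  have hle : ∀ α : F, α ≠ 0 → ∀ ε : (𝓞 F)ˣ, hf ((ε : F) * α) ≤ Gf α := by
    intro α h ε
    exact (summ h1 h).le_tsum ε fun j _ => (hf_pos (mul_ne_zero (unit_ne j) h)).le
  refine ⟨fun α h => summ h1 h, fun α ε => ?_, ?_, fun α h => ⟨hf_pos h, ?_⟩⟩
  · unfold Gf
    rw [← (Equiv.mulRight ε).tsum_eq (fun η : (𝓞 F)ˣ => hf ((η : F) * α))]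
    refine tsum_congr fun η => ?_
    rw [Equiv.coe_mulRight, Units.val_mul, map_mul, mul_assoc]
  · obtain ⟨C, hC, h3⟩ := h2 F
    refine ⟨(C ^ 3)⁻¹, by positivity, fun α h => ?_⟩
    obtain ⟨ε, hε⟩ := h3 α h
    refine le_trans ?_ (hle α h ε)
    unfold hf
    rw [absN_unit]
    have h4 : 0 < house ((ε : F) * α) := house_pos (mul_ne_zero (unit_ne ε) h)
    have h5 := absN_pos h
    rw [le_div_iff₀ (by positivity), inv_mul_le_iff₀ (by positivity)]
    calc house ((ε : F) * α) ^ (3 * finrank ℚ F)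
        = (house ((ε : F) * α) ^ finrank ℚ F) ^ 3 := by rw [mul_comm 3, pow_mul]
      _ ≤ (C * absN α) ^ 3 := by gcongr
      _ = C ^ 3 * absN α ^ 3 := by ring
  · have := hle α h 1
    simpa using this

end Pool.Agent.Helper51.RS
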