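import Pool.Agent.Helper36.RS.Goals
import Pool.Agent.Helper38.RF.C11

/-! # Packet CMS (project RF, existence part): completeness and interpolation -/

set_option autoImplicit false

namespace Pool.Agent.Helper51.RS

open Set Filter Topology MeasureTheory Pool.Agent.Helper47.RF Pool.Agent.Helper36.RS
open scoped ContDiff

theorem sn_Wd (m : ℕ) (w : List (Fin 3)) (u : XS) : sn m (Wd w u) ≤ sn (m + w.length) u := by
  induction w generalizing m with
  | nil => exact le_refl _
  | cons i w ih =>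
    rw [Wd_cons]
    refine (sn_Ed m i _).trans ((ih (m + 1)).trans (le_of_eq ?_))
    congr 1
    rw [List.length_cons]
    omega

/-- iterated integration by parts -/
theorem ibpw (w : List (Fin 3)) (u v : XS) :
    ip (Wd w u) v = (-1) ^ w.length * ip u (Wd w.reverse v) := by
  induction w generalizing v with
  | nil => simp
  | cons i w ih =>
    rw [Wd_cons, ibp, ih, List.reverse_cons, Wd_append, List.length_cons]
    simp only [Wd_cons, Wd_nil]
    ring

theorem cs0 (u v : XS) : ip u v ^ 2 ≤ ip u u * ip v v := by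
  have h := cs 0 u v
  rw [sn_zero, sn_zero, bf_apply] at h
  have h0 : Wle 0 = {[]} := by
    ext w
    rw [mem_Wle, Finset.mem_singleton]
    exact ⟨fun h => List.length_eq_zero_iff.1 (by omega), fun h => by simp [h]⟩
  rw [h0, Finset.sum_singleton] at h
  exact h

theorem interp (m : ℕ) (u : XS) :
    (sn m u) ^ 2 ≤ ((Wle m).card : ℝ) ^ 2 * sn 0 u * sn (2 * m) u := by
  have h1 : ∀ w ∈ Wle m, ip (Wd w u) (Wd w u) ≤ √(sn 0 u * sn (2 * m) u) := by
    intro w hw
    rw [mem_Wle] at hw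
    apply Real.le_sqrt_of_sq_le
    have h2 : ip (Wd w u) (Wd w u) ^ 2 = ip u (Wd (w.reverse ++ w) u) ^ 2 := by
      rw [ibpw, Wd_append, mul_pow, ← pow_mul, mul_comm w.length 2, pow_mul]
      norm_num
    rw [h2, sn_zero]
    refine (cs0 _ _).trans (mul_le_mul_of_nonneg_left ?_ (ip_nonneg _))
    apply ip_Wd_le
    rw [List.length_append, List.length_reverse]
    omega
  have h3 : sn m u ≤ (Wle m).card * √(sn 0 u * sn (2 * m) u) := by
    rw [sn_eq, ← nsmul_eq_mul]
    exact Finset.sum_le_card_nsmul _ _ _ h1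
  have h4 : 0 ≤ sn 0 u * sn (2 * m) u := mul_nonneg (sn_nonneg _ _) (sn_nonneg _ _)
  calc (sn m u) ^ 2 ≤ ((Wle m).card * √(sn 0 u * sn (2 * m) u)) ^ 2 :=
        pow_le_pow_left₀ (sn_nonneg _ _) h3 2
    _ = _ := by rw [mul_pow, Real.sq_sqrt h4]; ring

theorem ne_zero_ae : ∀ᵐ z ∂(volume.restrict (Metric.ball (0 : HH) 1)), z ≠ 0 := by
  apply ae_restrict_of_ae
  exact compl_mem_ae_iff.2 (measure_singleton (0 : HH))

/-- the sup norm bounds the square integral -/
theorem ip_le (u : XS) (ε : ℝ) (h : ∀ z, z ≠ 0 → |u.1 z| ≤ ε) :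
    ip u u ≤ 4 * (volume.real (Metric.ball (0 : HH) 1) * ε ^ 2) := by
  rw [ip_apply, integ]
  refine mul_le_mul_of_nonneg_left ?_ (by norm_num)
  have h1 : ∫ _x in Metric.ball (0 : HH) 1, ε ^ 2 =
      volume.real (Metric.ball (0 : HH) 1) * ε ^ 2 := by
    rw [setIntegral_const, smul_eq_mul]
  rw [← h1]
  refine integral_mono_ae (integrable_val (u * u)) ?_ ?_
  · exact integrable_val (algebraMap ℝ XS (ε ^ 2))
  · filter_upwards [ne_zero_ae] with z hz
    have h2 := h z hz
    have h3 : u.1 z * u.1 z = |u.1 z| ^ 2 := by rw [sq_abs]; ring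
    change u.1 z * u.1 z ≤ ε ^ 2
    rw [h3]
    exact pow_le_pow_left₀ (abs_nonneg _) h2 2

theorem der (f : HH → ℝ) (hf : Sm f) (i : Fin 3) (x : HH) (hx : x ≠ 0) (s : ℝ) :
    HasDerivAt (fun s : ℝ => f (x * NormedSpace.exp (s • qe i)))
      (E i f (x * NormedSpace.exp (s • qe i))) s := by
  have hx' : x * NormedSpace.exp (s • qe i) ≠ 0 :=
    mul_ne_zero hx (Pool.Agent.Helper38.RF.exp_ne _)
  have h1 : HasFDerivAt f (fderiv ℝ f (x * NormedSpace.exp (s • qe i)))
      (x * NormedSpace.exp (s • qe i)) := by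
    have h2 : ContDiffAt ℝ ((⊤ : ℕ∞) : WithTop ℕ∞) f (x * NormedSpace.exp (s • qe i)) :=
      hf.cd.contDiffAt (isOpen_compl_singleton.mem_nhds hx')
    exact (h2.differentiableAt (by simp)).hasFDerivAt
  have h3 : HasDerivAt (fun s : ℝ => x * NormedSpace.exp (s • qe i))
      (x * (NormedSpace.exp (s • qe i) * qe i)) s :=
    (hasDerivAt_exp_smul_const (qe i) s).const_mul x
  have h4 := h1.comp_hasDerivAt s h3
  rw [← mul_assoc] at h4
  exact h4

theorem cms : G_CMS := by
  intro hS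
  refine ⟨fun x hx => ?_, fun m => ⟨_, interp m⟩⟩
  obtain ⟨C, hC⟩ := hS
  -- uniform Cauchy property
  have hU : ∀ w : List (Fin 3), ∀ ε > 0, ∃ n0, ∀ n ≥ n0, ∀ k ≥ n0, ∀ z : HH, z ≠ 0 →
      |(Wd w (x n)).1 z - (Wd w (x k)).1 z| ≤ ε := by
    intro w ε hε
    obtain ⟨n0, h0⟩ := hx (4 + w.length) (ε ^ 2 / (|C| + 1)) (by positivity)
    refine ⟨n0, fun n hn k hk z hz => ?_⟩
    have h1 := hC (Wd w (x n - x k)) z hz
    have h2 := sn_Wd 4 w (x n - x k)
    have h3 := h0 n hn k hk
    have h4 : (Wd w (x n - x k)).1 z = (Wd w (x n)).1 z - (Wd w (x k)).1 z := by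
      rw [map_sub]
      rfl
    rw [h4] at h1
    have h5 : C * sn 4 (Wd w (x n - x k)) ≤ ε ^ 2 := by
      have h6 : 0 ≤ sn 4 (Wd w (x n - x k)) := sn_nonneg _ _
      calc C * sn 4 (Wd w (x n - x k)) ≤ (|C| + 1) * sn 4 (Wd w (x n - x k)) := by
            apply mul_le_mul_of_nonneg_right _ h6
            linarith [le_abs_self C]
        _ ≤ (|C| + 1) * (ε ^ 2 / (|C| + 1)) := by
            apply mul_le_mul_of_nonneg_left (h2.trans h3)
            linarith [abs_nonneg C]
        _ = ε ^ 2 := by field_simp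
    exact abs_le_of_sq_le_sq (h1.trans h5) hε.le
  -- pointwise limits
  have hL : ∀ (w : List (Fin 3)) (z : HH), ∃ a : ℝ, (z ≠ 0 →
      Tendsto (fun n => (Wd w (x n)).1 z) atTop (𝓝 a)) ∧ (z = 0 → a = 0) := by
    intro w z
    by_cases hz : z = 0
    · exact ⟨0, fun h => absurd hz h, fun _ => rfl⟩
    · have h1 : CauchySeq (fun n => (Wd w (x n)).1 z) := by
        rw [Metric.cauchySeq_iff]
        intro ε hε
        obtain ⟨n0, h0⟩ := hU w (ε / 2) (by positivity)
        refine ⟨n0, fun n hn k hk => ?_⟩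
        rw [Real.dist_eq]
        have := h0 n hn k hk z hz
        linarith
      obtain ⟨a, ha⟩ := cauchySeq_tendsto_of_complete h1
      exact ⟨a, fun _ => ha, fun h => absurd h hz⟩
  choose F hF using hL
  have hFU : ∀ w, TendstoUniformlyOn (fun n => (Wd w (x n)).1) (F w) atTop {0}ᶜ := by
    intro w
    rw [Metric.tendstoUniformlyOn_iff]
    intro ε hε
    obtain ⟨n0, h0⟩ := hU w (ε / 2) (by positivity)
    filter_upwards [eventually_ge_atTop n0] with n hn z hz
    have h1 : |(F w z) - (Wd w (x n)).1 z| ≤ ε / 2 := by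
      have h2 : Tendsto (fun k => |(Wd w (x k)).1 z - (Wd w (x n)).1 z|) atTop
          (𝓝 |(F w z) - (Wd w (x n)).1 z|) :=
        (((hF w z).1 hz).sub_const _).abs
      refine le_of_tendsto h2 ?_
      filter_upwards [eventually_ge_atTop n0] with k hk
      exact h0 k hk n hn z hz
    rw [Real.dist_eq]
    linarith
  have hval : ∀ w (u : XS), (Wd w u).1 = Ew w u.1 := Wd_val
  have hHom : ∀ w, Hom0 (F w) := by
    intro w r z hr
    by_cases hz : z = 0
    · rw [hz, smul_zero]
    · have hrz : r • z ≠ 0 := smul_ne_zero hr.ne' hz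
      refine tendsto_nhds_unique ((hF w _).1 hrz) ?_
      refine ((hF w z).1 hz).congr fun n => ?_
      exact ((Wd w (x n)).2.hom r z hr).symm
  have hCont : ∀ w, ContinuousOn (F w) {0}ᶜ := by
    intro w
    refine (hFU w).continuousOn (Eventually.of_forall fun n => ?_).frequently
    exact (Wd w (x n)).2.cd.continuousOn
  have hDer : ∀ w i x, x ≠ 0 →
      HasDerivAt (fun s : ℝ => F w (x * NormedSpace.exp (s • qe i))) (F (i :: w) x) 0 := by
    intro w i z hz
    have hmap : ∀ s : ℝ, z * NormedSpace.exp (s • qe i) ≠ 0 := fun s =>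
      mul_ne_zero hz (Pool.Agent.Helper38.RF.exp_ne _)
    have h1 : TendstoUniformly
        (fun n (s : ℝ) => (Wd (i :: w) (x n)).1 (z * NormedSpace.exp (s • qe i)))
        (fun s : ℝ => F (i :: w) (z * NormedSpace.exp (s • qe i))) atTop := by
      rw [Metric.tendstoUniformly_iff]
      intro ε hε
      have h2 := hFU (i :: w)
      rw [Metric.tendstoUniformlyOn_iff] at h2
      filter_upwards [h2 ε hε] with n hn s
      exact hn _ (hmap s)
    have h2 := hasDerivAt_of_tendstoUniformly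
      (f := fun n (s : ℝ) => (Wd w (x n)).1 (z * NormedSpace.exp (s • qe i)))
      (g := fun s : ℝ => F w (z * NormedSpace.exp (s • qe i))) h1
      (Eventually.of_forall fun n s => der _ (Wd w (x n)).2 i z hz s)
      (fun s => (hF w _).1 (hmap s)) 0
    simpa using h2
  obtain ⟨hy, hyw⟩ := goal_C11 F hHom hCont hDer
  · refine ⟨⟨F [], hy⟩, fun m => ?_⟩
    have hval2 : ∀ w n z, z ≠ 0 → (Wd w (x n - ⟨F [], hy⟩)).1 z = (Wd w (x n)).1 z - F w z := by
      intro w n z hz
      have h1 : (Wd w (x n - ⟨F [], hy⟩)).1 z =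
          (Wd w (x n)).1 z - (Wd w (⟨F [], hy⟩ : XS)).1 z := by
        rw [map_sub]
        rfl
      rw [h1, Wd_val w ⟨F [], hy⟩]
      have h2 := hyw w z hz
      change _ - Ew w (F []) z = _
      rw [h2]
    have hlim : ∀ w, Tendsto (fun n => ip (Wd w (x n - ⟨F [], hy⟩)) (Wd w (x n - ⟨F [], hy⟩)))
        atTop (𝓝 0) := by
      intro w
      rw [Metric.tendsto_atTop]
      intro ε hε
      set V := volume.real (Metric.ball (0 : HH) 1) with hV
      have hV0 : 0 ≤ V := measureReal_nonneg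
      have h1 := hFU w
      rw [Metric.tendstoUniformlyOn_iff] at h1
      set δ := √(ε / (2 * (4 * V + 1))) with hδ
      have hδ0 : 0 < δ := Real.sqrt_pos.2 (by positivity)
      have hδ2 : δ ^ 2 = ε / (2 * (4 * V + 1)) := Real.sq_sqrt (by positivity)
      obtain ⟨n0, h0⟩ := eventually_atTop.1 (h1 δ hδ0)
      refine ⟨n0, fun n hn => ?_⟩
      rw [Real.dist_eq, sub_zero, abs_of_nonneg (ip_nonneg _)]
      have h2 := ip_le (Wd w (x n - ⟨F [], hy⟩)) δ (fun z hz => by
        rw [hval2 w n z hz]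
        have h3 := h0 n hn z hz
        rw [Real.dist_eq, abs_sub_comm] at h3
        exact h3.le)
      rw [← hV, hδ2] at h2
      have h4 : 4 * (V * (ε / (2 * (4 * V + 1)))) ≤ ε / 2 := by
        have h5 : 4 * (V * (ε / (2 * (4 * V + 1)))) = (4 * V / (4 * V + 1)) * (ε / 2) := by
          field_simp
        rw [h5]
        have h6 : 4 * V / (4 * V + 1) ≤ 1 := by
          rw [div_le_one (by positivity)]
          linarith
        calc (4 * V / (4 * V + 1)) * (ε / 2) ≤ 1 * (ε / 2) :=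
              mul_le_mul_of_nonneg_right h6 (by positivity)
          _ = ε / 2 := one_mul _
      linarith
    have h5 : Tendsto (fun n => ∑ w ∈ Wle m,
        ip (Wd w (x n - ⟨F [], hy⟩)) (Wd w (x n - ⟨F [], hy⟩))) atTop
        (𝓝 (∑ w ∈ Wle m, (0 : ℝ))) := tendsto_finset_sum _ fun w _ => hlim w
    rw [Finset.sum_const_zero] at h5
    refine h5.congr fun n => ?_
    rw [sn_eq]

end Pool.Agent.Helper51.RS
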